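import Mathlib

/-!
# Closed images with Lindelöf fibres (in particular perfect images) of paralindelöf spaces

If `f : X → Y` is a continuous closed surjection all of whose fibres are Lindelöf and `X` is
paralindelöf, then `Y` is paralindelöf.  A perfect map has compact, hence Lindelöf, fibres.
-/

open Set Topology

namespace Pool.Agent.Results.MP_6bd103_gt.LindelofFibres

universe u v

/-- A family `W` of subsets of `X` is locally countable if every point has a neighbourhood which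
meets only countably many members of `W`. -/
def LocallyCountable {X : Type u} [TopologicalSpace X] (W : Set (Set X)) : Prop :=
  ∀ x : X, ∃ N ∈ 𝓝 x, {V : Set X | V ∈ W ∧ (V ∩ N).Nonempty}.Countable

/-- `X` is paralindelöf if every open cover has a locally countable open refinement. -/
def Paralindelof (X : Type u) [TopologicalSpace X] : Prop :=
  ∀ U : Set (Set X), (∀ u ∈ U, IsOpen u) → ⋃₀ U = univ →
    ∃ W : Set (Set X), (∀ w ∈ W, IsOpen w) ∧ ⋃₀ W = univ ∧ (∀ w ∈ W, ∃ u ∈ U, w ⊆ u) ∧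
      LocallyCountable W

/-- The images of a locally countable family under a closed continuous map with Lindelöf fibres
are locally countable (as an indexed family). -/
theorem image_locallyCountable {X : Type u} {Y : Type v} [TopologicalSpace X] [TopologicalSpace Y]
    {f : X → Y} (hcl : IsClosedMap f)
    (hL : ∀ y, IsLindelof (f ⁻¹' {y})) {W : Set (Set X)} (hW : LocallyCountable W) (y : Y) :
    ∃ N : Set Y, IsOpen N ∧ y ∈ N ∧ {V : Set X | V ∈ W ∧ (f '' V ∩ N).Nonempty}.Countable := by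
  choose N hN hNc using hW
  have hopen : ∀ x, ∃ O : Set X, IsOpen O ∧ x ∈ O ∧ O ⊆ N x := fun x => by
    obtain ⟨O, hO, hOo, hx⟩ := mem_nhds_iff.1 (hN x)
    exact ⟨O, hOo, hx, hO⟩
  choose O hOo hxO hON using hopen
  obtain ⟨t, htc, hts, ht⟩ := (hL y).elim_nhds_subcover O (fun x _ => (hOo x).mem_nhds (hxO x))
  have hGo : IsOpen (⋃ x ∈ t, O x) := isOpen_biUnion fun x _ => hOo x
  refine ⟨(f '' (⋃ x ∈ t, O x)ᶜ)ᶜ, (hcl _ hGo.isClosed_compl).isOpen_compl, ?_, ?_⟩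
  · rintro ⟨x, hx, hxy⟩
    exact hx (ht hxy)
  · refine ((htc.biUnion fun x _ => hNc x)).mono ?_
    rintro V ⟨hV, z, ⟨x, hxV, rfl⟩, hz⟩
    have hx : x ∈ ⋃ x ∈ t, O x := by
      by_contra hcon
      exact hz ⟨x, hcon, rfl⟩
    simp only [mem_iUnion, exists_prop] at hx ⊢
    obtain ⟨a, hat, hxa⟩ := hx
    exact ⟨a, hat, hV, x, hxV, hON a hxa⟩

/-- **Theorem.** Let `f : X → Y` be a continuous closed surjection all of whose fibres are
Lindelöf (for instance a perfect map).  If `X` is paralindelöf, then so is `Y`. -/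
theorem result (X : Type u) (Y : Type v) [TopologicalSpace X] [TopologicalSpace Y] (f : X → Y)
    (hcont : Continuous f) (hsurj : Function.Surjective f) (hcl : IsClosedMap f)
    (hL : ∀ y, IsLindelof (f ⁻¹' {y})) (hX : Paralindelof X) : Paralindelof Y := by
  intro U hUo hUc
  -- first refinement
  obtain ⟨W0, hW0o, hW0c, hW0r, hW0l⟩ := hX ((fun u => f ⁻¹' u) '' U)
    (by rintro _ ⟨u, hu, rfl⟩; exact (hUo u hu).preimage hcont)
    (by
      apply eq_univ_of_forall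
      intro x
      have : f x ∈ ⋃₀ U := by rw [hUc]; trivial
      obtain ⟨u, hu, hxu⟩ := this
      exact ⟨_, ⟨u, hu, rfl⟩, hxu⟩)
  have h0 : ∀ w ∈ W0, ∃ u ∈ U, f '' w ⊆ u := by
    intro w hw
    obtain ⟨_, ⟨u, hu, rfl⟩, hwu⟩ := hW0r w hw
    exact ⟨u, hu, image_subset_iff.2 hwu⟩
  choose! c hcU hc using h0
  have hI0 := fun y => image_locallyCountable hcl hL hW0l y
  choose P hPo hyP hPc using hI0
  -- second refinement
  obtain ⟨W1, hW1o, hW1c, hW1r, hW1l⟩ := hX (range fun y => f ⁻¹' (P y))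
    (by rintro _ ⟨y, rfl⟩; exact (hPo y).preimage hcont)
    (by
      apply eq_univ_of_forall
      intro x
      exact ⟨_, ⟨f x, rfl⟩, hyP (f x)⟩)
  have h1 : ∀ w ∈ W1, {V : Set X | V ∈ W0 ∧ (f '' V ∩ f '' w).Nonempty}.Countable := by
    intro w hw
    obtain ⟨_, ⟨y, rfl⟩, hwy⟩ := hW1r w hw
    refine (hPc y).mono ?_
    rintro V ⟨hV, z, hz1, ⟨x, hx, rfl⟩⟩
    exact ⟨hV, f x, hz1, hwy hx⟩
  have hI1 := fun y => image_locallyCountable hcl hL hW1l y
  -- the expansions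
  let G : Set X → Set X := fun V => ⋃₀ {w | w ∈ W1 ∧ (f '' V ∩ f '' w).Nonempty}
  have hGo : ∀ V, IsOpen (G V) := fun V => isOpen_sUnion fun w hw => hW1o w hw.1
  let H : Set X → Set Y := fun V => (f '' (G V)ᶜ)ᶜ
  have hHo : ∀ V, IsOpen (H V) := fun V => (hcl _ (hGo V).isClosed_compl).isOpen_compl
  have hVH : ∀ V, f '' V ⊆ H V := by
    rintro V _ ⟨x, hx, rfl⟩ ⟨z, hz, hzx⟩
    apply hz
    have : z ∈ ⋃₀ W1 := by rw [hW1c]; trivial
    obtain ⟨w, hw, hzw⟩ := this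
    exact ⟨w, ⟨hw, f x, ⟨x, hx, rfl⟩, ⟨z, hzw, hzx⟩⟩, hzw⟩
  have hHG : ∀ V y, y ∈ H V → ∃ w ∈ W1, (f '' V ∩ f '' w).Nonempty ∧ y ∈ f '' w := by
    intro V y hy
    obtain ⟨x, rfl⟩ := hsurj y
    have hx : x ∈ G V := by
      by_contra hcon
      exact hy ⟨x, hcon, rfl⟩
    obtain ⟨w, ⟨hw, hne⟩, hxw⟩ := hx
    exact ⟨w, hw, hne, x, hxw, rfl⟩
  refine ⟨(fun V => H V ∩ c V) '' W0, ?_, ?_, ?_, ?_⟩
  · rintro _ ⟨V, hV, rfl⟩
    exact (hHo V).inter (hUo _ (hcU V hV))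
  · apply eq_univ_of_forall
    intro y
    obtain ⟨x, rfl⟩ := hsurj y
    have : x ∈ ⋃₀ W0 := by rw [hW0c]; trivial
    obtain ⟨V, hV, hxV⟩ := this
    exact ⟨_, ⟨V, hV, rfl⟩, hVH V ⟨x, hxV, rfl⟩, hc V hV ⟨x, hxV, rfl⟩⟩
  · rintro _ ⟨V, hV, rfl⟩
    exact ⟨c V, hcU V hV, inter_subset_right⟩
  · intro y
    obtain ⟨N, hNo, hyN, hNc⟩ := hI1 y
    refine ⟨N, hNo.mem_nhds hyN, ?_⟩
    have hcount : {V : Set X | V ∈ W0 ∧ (H V ∩ N).Nonempty}.Countable := by
      refine (hNc.biUnion (t := fun w _ => {V : Set X | V ∈ W0 ∧ (f '' V ∩ f '' w).Nonempty})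
        (fun w hw => h1 w hw.1)).mono ?_
      rintro V ⟨hV, z, hzH, hzN⟩
      obtain ⟨w, hw, hne, hzw⟩ := hHG V z hzH
      simp only [mem_iUnion, exists_prop]
      exact ⟨w, ⟨hw, z, hzw, hzN⟩, hV, hne⟩
    refine (hcount.image (fun V => H V ∩ c V)).mono ?_
    rintro _ ⟨⟨V, hV, rfl⟩, z, ⟨hzH, _⟩, hzN⟩
    exact ⟨V, ⟨hV, z, hzH, hzN⟩, rfl⟩

end Pool.Agent.Results.MP_6bd103_gt.LindelofFibres
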